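import Pool.Agent.N794.CG.Aut
import Pool.Agent.N794.CG.Quad

/-!
# The moments of the torsion of the class groups of the quadratic fields `ℚ(√(j v))` over the members `v` of automatic sets

From Mathlib: `DFA ℕ σ`: finite automata (for `[Fintype σ]`) which read words of natural numbers; `Nat.digits b v`: the
digits of `v` in base `b`, the least significant digit first; `𝓞 K`, `ClassGroup`, `NumberField.discr`: the ring of
integers, the class group and the discriminant.

Method: for almost all members `v` of an automatic set of more than polylogarithmic size many small primes split in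
`ℚ(√(j v))`, with a high power saving in the proportion of the exceptions at each scale: the random member of the set is
dominated, up to a power of the logarithm, by a random integer whose characteristic function decays (starting library,
`Pool.Agent.H491R4.AF`), and the rest is a variant of `Pool.Agent.H491R4.HM` and `Pool.Agent.R459.Tor` of the starting
library, where digit families are treated; then the argument of Ellenberg and Venkatesh.
-/

set_option autoImplicit false

namespace Pool.Agent.Results.MP_16912e_nt.AutomaticFamilies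

open Finset NumberField Filter

/-- `|Cl(K)[l]|`: the number of the ideal classes of `K` killed by `l`. -/
noncomputable def tors (K : Type) [Field K] [NumberField K] (l : ℕ) : ℕ := Nat.card {x : ClassGroup (𝓞 K) // x ^ l = 1}

open Classical in
/-- The integers `0 ≤ v < N` whose digits in base `b` (the least significant digit first) are accepted by the automaton
`M`. -/
noncomputable def members {σ : Type} (b : ℕ) (M : DFA ℕ σ) (N : ℕ) : Finset ℕ :=
  (range N).filter (fun v => Nat.digits b v ∈ M.accepts)

open Classical in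
/-- Let `M` be a finite automaton which accepts the digits, in base `b ≥ 2`, of more than polylogarithmically many integers:
for every `k` there are infinitely many `N` such that more than `(log N) ^ k` integers `v < N` are accepted (this excludes only
sparse sets; the number of the accepted `v < N` may be `N ^ c` with arbitrarily small `c > 0`). Let `r ≥ 1`. There is `δ > 0`
such that for `κ ≠ 0` and `T`, `V` there are `B`, `N₀` such that the following holds for all `N ≥ N₀`, all `c`, all integers
`j ≠ 0` with `|j| ≤ (log N) ^ T`, all `l` with `1 ≤ l ≤ (log N) ^ T`, and all `Y ≥ 1`.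

Let `K_v = ℚ(√(j v))` be quadratic fields, real or imaginary, with discriminant of absolute value at most `Y`, for the
integers `v` in a set `S` of integers of absolute value at most `N ^ V`. Then the mean value over the accepted `u < N`, with
`v = c + κ u`, of the power `|Cl(K_v)[l]| ^ r` (with `0` if `v` is not in `S`) is at most
`((log N) ^ B Y ^ (1 / 2) max (Y ^ (-1 / (2 l)), N ^ (- δ))) ^ r`. For `r = 1` and a prime `l` this is the average of the
question, with the exponent `1 / 2 - 1 / (2 l)`, over the family. -/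
theorem result {σ : Type} [Fintype σ] (b : ℕ) (hb : 2 ≤ b) (M : DFA ℕ σ)
    (hS : ∀ k : ℕ, ∃ᶠ N : ℕ in atTop, Real.log N ^ k < ((members b M N).card : ℝ)) (r : ℕ) (hr : 1 ≤ r) : ∃ δ : ℝ, 0 < δ ∧
    ∀ κ : ℤ, κ ≠ 0 → ∀ T V : ℕ, ∃ B N₀ : ℕ, ∀ N : ℕ, N₀ ≤ N → ∀ c j : ℤ, j ≠ 0 →
    |(j : ℝ)| ≤ Real.log N ^ T → ∀ l : ℕ, 1 ≤ l → (l : ℝ) ≤ Real.log N ^ T →
    ∀ Y : ℝ, 1 ≤ Y → ∀ (S : Set ℤ) (K : ℤ → Type) [∀ v, Field (K v)] [∀ v, NumberField (K v)],
    (∀ v ∈ S, |(v : ℝ)| ≤ (N : ℝ) ^ V ∧ Module.finrank ℚ (K v) = 2 ∧ |(discr (K v) : ℝ)| ≤ Y ∧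
      ∃ α : K v, IntermediateField.adjoin ℚ {α} = ⊤ ∧ α ^ 2 = ((j * v : ℤ) : K v)) →
    1 / ((members b M N).card : ℝ) *
      ∑ u ∈ members b M N, (if c + κ * u ∈ S then (tors (K (c + κ * u)) l : ℝ) ^ r else 0) ≤
      (Real.log N ^ B * (√Y * max (Y ^ (-(1 / (2 * (l : ℝ))))) ((N : ℝ) ^ (-δ)))) ^ r := by
  obtain ⟨B, A, e₀, N₁, hB, hdom⟩ := Pool.Agent.N794.CG.aut_dom b hb M (fun k => (hS k).mono fun N hN => by
    rw [Pool.Agent.N794.CG.acc_mem]
    exact hN)
  obtain ⟨W, hW, H⟩ := Pool.Agent.N794.CG.quad_gen B hB A (1 / 2) (by norm_num) (by norm_num) r hr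
  have hWr : (0 : ℝ) < W := by exact_mod_cast hW
  refine ⟨1 / W, by positivity, fun κ hκ T V => ?_⟩
  obtain ⟨B₁, k₀, J⟩ := H B.factorial κ (Nat.factorial_pos _) hκ (2 * T) V
  refine ⟨2 * B₁ + e₀, N₁ + 32 + B ^ (k₀ + B), fun N hN c j hj0 hj l hl1 hlT Y hY S K _ _ hS => ?_⟩
  have hsc := Pool.Agent.N794.CG.scaleB_of B hB N (by omega)
  obtain ⟨k, hk⟩ : ∃ k, k = Nat.log B N + 1 := ⟨_, rfl⟩
  rw [← hk] at hsc
  have hkk : k₀ + B < k := (Nat.pow_lt_pow_iff_right (by omega)).1 (lt_of_le_of_lt (by omega) hsc.high)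
  have hd := hdom N (by omega) κ c
  rw [← hk] at hd
  have hcard : (0 : ℝ) ≤ ((Pool.Agent.N794.CG.mem b M N).card : ℝ) := Nat.cast_nonneg _
  have hL1 : 1 ≤ Real.log N := by
    rw [Real.le_log_iff_exp_le (by exact_mod_cast (by omega : 0 < N))]
    have h1 := Real.exp_one_lt_d9
    have h2 : (32 : ℝ) ≤ N := by exact_mod_cast (by omega : 32 ≤ N)
    linarith
  have h1 := J k (by omega) j hj0 (hsc.int_le hB (by omega) (by omega) T j hj) l hl1
    (hsc.nat_le hB (by omega) (by omega) T l hlT) Y hY S K (fun v hv => by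
      obtain ⟨h1, h2, h3, h4⟩ := hS v hv
      exact ⟨hsc.size_le V v h1, h2, h3, h4⟩) (Real.log N ^ e₀) ℕ _ _ _ (one_le_pow₀ hL1) (fun _ _ => by positivity) (by
      rw [sum_const, nsmul_eq_mul, mul_one_div]
      exact div_self_le_one _) hd
  rw [← mul_sum] at h1
  exact h1.trans (hsc.bound hB (by omega) B₁ W r e₀ hr Y (1 / (2 * (l : ℝ))) hY)

end Pool.Agent.Results.MP_16912e_nt.AutomaticFamilies
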